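import Pool.Agent.Work.MP_6985d1_gg.Interface

set_option autoImplicit false

namespace GrigGrowth.helper51

open GrigGrowth

lemma list_of_mem_closure {G : Type} [Group G] {S : Set G} {x : G} (hx : x ∈ Subgroup.closure S) :
    ∃ l : List G, (∀ y ∈ l, y ∈ S ∨ y⁻¹ ∈ S) ∧ l.prod = x := by
  have h1 : x ∈ Submonoid.closure (S ∪ S⁻¹) := by
    rw [← Subgroup.closure_toSubmonoid]
    exact hx
  obtain ⟨l, hl, hp⟩ := Submonoid.exists_list_of_mem_closure h1
  exact ⟨l, fun y hy => hl y hy, hp⟩

lemma gen_mem (s : L) : gen s ∈ Grig := Subgroup.subset_closure ⟨s, rfl⟩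

lemma W_mem (w : List L) : W w ∈ Grig := by
  induction w with
  | nil => exact one_mem _
  | cons s w ih => rw [W_cons]; exact mul_mem (gen_mem s) ih

lemma exists_word (g : Equiv.Perm (List Bool)) (hg : g ∈ Grig) : ∃ w : List L, W w = g := by
  obtain ⟨l, hl, rfl⟩ := list_of_mem_closure hg
  clear hg
  induction l with
  | nil => exact ⟨[], by simp⟩
  | cons y l ih =>
    obtain ⟨w, hw⟩ := ih (fun z hz => hl z (List.mem_cons_of_mem _ hz))
    have hy : ∃ s, gen s = y := by
      rcases hl y List.mem_cons_self with h | h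
      · obtain ⟨s, hs⟩ := h
        exact ⟨s, hs⟩
      · obtain ⟨s, hs⟩ := h
        refine ⟨s, ?_⟩
        rw [← gen_inv s, hs, inv_inv]
    obtain ⟨s, hs⟩ := hy
    exact ⟨s :: w, by rw [W_cons, hs, hw, List.prod_cons]⟩

/-- Finiteness of the balls of a finite set. -/
lemma finite_ball {G : Type} [Group G] {S : Set G} (hS : S.Finite) (n : ℕ) :
    {g : G | ∃ l : List G, l.length ≤ n ∧ (∀ x ∈ l, x ∈ S) ∧ l.prod = g}.Finite := by
  haveI : Finite S := hS
  have h : {g : G | ∃ l : List G, l.length ≤ n ∧ (∀ x ∈ l, x ∈ S) ∧ l.prod = g} ⊆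
      (fun l : List S => (l.map Subtype.val).prod) '' {l : List S | l.length ≤ n} := by
    rintro g ⟨l, hl, hlS, rfl⟩
    refine ⟨l.pmap Subtype.mk hlS, by simpa using hl, ?_⟩
    simp [List.map_pmap]
  exact ((List.finite_length_le S n).image _).subset h

lemma ball_eq (n : ℕ) : ball n =
    {g | ∃ l : List (Equiv.Perm (List Bool)), l.length ≤ n ∧ (∀ x ∈ l, x ∈ Set.range gen) ∧
      l.prod = g} := by
  ext g
  constructor
  · rintro ⟨w, hw, rfl⟩
    refine ⟨w.map gen, by simpa using hw, ?_, rfl⟩
    intro x hx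
    rw [List.mem_map] at hx
    obtain ⟨s, _, rfl⟩ := hx
    exact ⟨s, rfl⟩
  · rintro ⟨l, hl, hlS, rfl⟩
    have : ∃ w : List L, w.map gen = l := by
      clear hl
      induction l with
      | nil => exact ⟨[], rfl⟩
      | cons x l ih =>
        obtain ⟨w, hw⟩ := ih (fun z hz => hlS z (List.mem_cons_of_mem _ hz))
        obtain ⟨s, hs⟩ := hlS x List.mem_cons_self
        exact ⟨s :: w, by rw [List.map_cons, hs, hw]⟩
    obtain ⟨w, rfl⟩ := this
    exact ⟨w, by simpa using hl, rfl⟩

instance : Finite L := by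
  refine Finite.of_injective (fun s : L => (match s with
    | .a => (0 : Fin 4)
    | .b => 1
    | .c => 2
    | .d => 3)) ?_
  intro x y h
  cases x <;> cases y <;> simp_all

lemma ball_finite (n : ℕ) : (ball n).Finite := by
  rw [ball_eq]
  exact finite_ball (Set.finite_range gen) n

theorem stmt_BALLFIN : Stmt_BALLFIN := ball_finite

/-- Length of a concatenation. -/
lemma flatMap_length_le {α β : Type*} (f : α → List β) (K : ℕ) (l : List α)
    (h : ∀ x ∈ l, (f x).length ≤ K) : (l.flatMap f).length ≤ K * l.length := by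
  induction l with
  | nil => simp
  | cons x l ih =>
    have h1 := ih (fun z hz => h z (List.mem_cons_of_mem _ hz))
    have h2 := h x List.mem_cons_self
    rw [List.flatMap_cons, List.length_append, List.length_cons]
    nlinarith

theorem stmt_GENS : Stmt_GENS := by
  intro S hS hinv hgen
  constructor
  · -- words for the members of `S`
    have hw : ∀ x : Grig, ∃ w : List L, W w = (x : Equiv.Perm (List Bool)) :=
      fun x => exists_word x x.2
    choose wo hwo using hw
    obtain ⟨K, hK⟩ : ∃ K : ℕ, ∀ x ∈ S, (wo x).length ≤ K := by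
      obtain ⟨K, hK⟩ := (hS.image fun x => (wo x).length).bddAbove
      exact ⟨K, fun x hx => hK ⟨x, hx, rfl⟩⟩
    refine ⟨K + 1, by omega, fun n => ?_⟩
    show growth S n ≤ (ball ((K + 1) * n)).ncard
    have hmem : ∀ g : {g : Grig // ∃ l : List Grig, l.length ≤ n ∧ (∀ x ∈ l, x ∈ S) ∧ l.prod = g},
        ((g.1 : Grig) : Equiv.Perm (List Bool)) ∈ ball ((K + 1) * n) := by
      rintro ⟨g, l, hl, hlS, rfl⟩
      refine ⟨l.flatMap wo, ?_, ?_⟩
      · have h1 := flatMap_length_le wo K l (fun x hx => hK x (hlS x hx))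
        nlinarith
      · show W (l.flatMap wo) = ((l.prod : Grig) : Equiv.Perm (List Bool))
        clear hl hlS
        induction l with
        | nil => simp
        | cons x l ih =>
          rw [List.flatMap_cons, W_append, ih, hwo, List.prod_cons]
          rfl
    haveI : Finite (ball ((K + 1) * n)) := ball_finite _
    unfold growth
    rw [← Nat.card_coe_set_eq]
    refine Nat.card_le_card_of_injective (fun g => (⟨_, hmem g⟩ : ball ((K + 1) * n))) ?_
    intro g g' h
    have h1 := congrArg Subtype.val h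
    exact Subtype.ext (Subtype.ext h1)
  · have hw : ∀ s : L, ∃ l : List Grig, (∀ x ∈ l, x ∈ S) ∧ l.prod = ⟨gen s, gen_mem s⟩ := by
      intro s
      have h1 : (⟨gen s, gen_mem s⟩ : Grig) ∈ Subgroup.closure S := by rw [hgen]; trivial
      obtain ⟨l, hl, hp⟩ := list_of_mem_closure h1
      refine ⟨l, fun x hx => ?_, hp⟩
      rcases hl x hx with h | h
      · exact h
      · have := hinv _ h
        rwa [inv_inv] at this
    choose lo hlo hlp using hw
    obtain ⟨K, hK⟩ : ∃ K : ℕ, ∀ s, (lo s).length ≤ K := by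
      obtain ⟨K, hK⟩ := (Set.finite_range fun s => (lo s).length).bddAbove
      exact ⟨K, fun s => hK ⟨s, rfl⟩⟩
    refine ⟨K + 1, by omega, fun n => ?_⟩
    show (ball n).ncard ≤ growth S ((K + 1) * n)
    have hmem : ∀ g : ball n, ∃ x : Grig, (x : Equiv.Perm (List Bool)) = g.1 ∧
        ∃ l : List Grig, l.length ≤ (K + 1) * n ∧ (∀ x ∈ l, x ∈ S) ∧ l.prod = x := by
      rintro ⟨g, w, hwn, rfl⟩
      refine ⟨⟨W w, W_mem w⟩, rfl, w.flatMap lo, ?_, ?_, ?_⟩
      · have h1 := flatMap_length_le lo K w (fun s _ => hK s)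
        nlinarith
      · intro x hx
        rw [List.mem_flatMap] at hx
        obtain ⟨s, _, hx⟩ := hx
        exact hlo s x hx
      · clear hwn
        induction w with
        | nil => exact Subtype.ext (by simp)
        | cons s w ih =>
          rw [List.flatMap_cons, List.prod_append, ih, hlp]
          rfl
    choose f hf hfl using hmem
    haveI : Finite {g : Grig // ∃ l : List Grig, l.length ≤ (K + 1) * n ∧ (∀ x ∈ l, x ∈ S) ∧
        l.prod = g} := finite_ball hS _
    unfold growth
    rw [← Nat.card_coe_set_eq]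
    refine Nat.card_le_card_of_injective (fun g : ball n => (⟨f g, hfl g⟩ :
      {g : Grig // ∃ l : List Grig, l.length ≤ (K + 1) * n ∧ (∀ x ∈ l, x ∈ S) ∧ l.prod = g})) ?_
    intro g g' h
    have h1 : f g = f g' := congrArg Subtype.val h
    exact Subtype.ext (by rw [← hf g, ← hf g', h1])

end GrigGrowth.helper51
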