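import Pool.Agent.Work.MP_6985d1_gg.Interface

set_option autoImplicit false

namespace GrigGrowth.helper51

open GrigGrowth

/-- Total length of the words of a program. -/
def tlen (P : List (Option ℕ)) : ℕ := (P.map fun i => (iw i).length).sum

lemma U_length (P : List (Option ℕ)) : ∀ e : List Bool, (U P e).length ≤ tlen P := by
  induction P with
  | nil => intro e; simp [U, tlen]
  | cons i P ih =>
    intro e
    cases e with
    | nil => simp [U]
    | cons x e =>
      have h := ih e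
      simp only [U, List.length_append, tlen, List.map_cons, List.sum_cons] at h ⊢
      cases x
      · simp; omega
      · simp; omega

lemma tlen_append (P Q : List (Option ℕ)) : tlen (P ++ Q) = tlen P + tlen Q := by
  simp [tlen]

lemma sum_JJ (l : ℝ) (hl : 2 < l) (hLEN : ∀ j, ((fl j).length : ℝ) ≤ 4 * l ^ j) (M m B : ℕ)
    (hB : ∀ j ∈ JJ M m, j ≤ B) :
    ((tlen ((JJ M m).map some) : ℕ) : ℝ) ≤ 4 * l ^ (B + 1) := by
  have hnd : (JJ M m).Nodup := List.nodup_range.filter _
  have h1 : tlen ((JJ M m).map some) = ∑ j ∈ (JJ M m).toFinset, (fl j).length := by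
    rw [List.sum_toFinset _ hnd, tlen, List.map_map]
    rfl
  have h2 : (JJ M m).toFinset ⊆ Finset.range (B + 1) := by
    intro j hj
    rw [List.mem_toFinset] at hj
    rw [Finset.mem_range]
    have := hB j hj
    omega
  have h3 : (∑ j ∈ (JJ M m).toFinset, ((fl j).length : ℝ)) ≤ ∑ j ∈ Finset.range (B + 1), 4 * l ^ j :=
    (Finset.sum_le_sum fun j _ => hLEN j).trans
      (Finset.sum_le_sum_of_subset_of_nonneg h2 fun j _ _ => by positivity)
  have h4 : ∀ N : ℕ, ∑ j ∈ Finset.range N, 4 * l ^ j ≤ 4 * l ^ N := by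
    intro N
    induction N with
    | zero => simp
    | succ N ih =>
      rw [Finset.sum_range_succ, pow_succ]
      have : (0 : ℝ) < l ^ N := by positivity
      nlinarith
  rw [h1]
  push_cast
  exact h3.trans (h4 _)

/-- The terms of the geometric series. -/
noncomputable def gt (l : ℝ) (t : ℕ) : ℝ := 2 ^ t * l ^ (t / 8) / l ^ t

lemma gt_nonneg (l : ℝ) (hl : 2 < l) (t : ℕ) : 0 ≤ gt l t := by
  unfold gt; positivity

lemma gt_add (l : ℝ) (hl : 2.46 < l) (t : ℕ) : gt l (t + 8) ≤ gt l t / 2 := by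
  have hl0 : 0 < l := by linarith
  have h7 : 512 ≤ l ^ 7 := by
    have h1 : (2.46 : ℝ) ^ 7 ≤ l ^ 7 := pow_le_pow_left₀ (by norm_num) hl.le 7
    have h2 : (512 : ℝ) ≤ 2.46 ^ 7 := by norm_num
    linarith
  have h1 : (t + 8) / 8 = t / 8 + 1 := by omega
  have h2 : gt l (t + 8) = gt l t * (256 / l ^ 7) := by
    unfold gt
    rw [h1]
    field_simp
    ring
  rw [h2]
  have h3 : 256 / l ^ 7 ≤ 1 / 2 := by
    rw [div_le_div_iff₀ (by positivity) (by norm_num)]
    linarith
  have h4 := gt_nonneg l (by linarith) t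
  nlinarith

lemma gt_small (l : ℝ) (hl : 2.46 < l) (t : ℕ) (ht : t < 8) : gt l t ≤ 1 := by
  have hl0 : 0 < l := by linarith
  unfold gt
  have h1 : t / 8 = 0 := by omega
  rw [h1, pow_zero, mul_one, div_le_one (by positivity)]
  exact pow_le_pow_left₀ (by norm_num) (by linarith) t

lemma gt_sum (l : ℝ) (hl : 2.46 < l) : ∀ N : ℕ, ∑ t ∈ Finset.range N, gt l t ≤ 16 := by
  intro N
  induction N using Nat.strong_induction_on with
  | _ N ih =>
    rcases Nat.lt_or_ge N 8 with h | h
    · calc ∑ t ∈ Finset.range N, gt l t ≤ ∑ t ∈ Finset.range N, (1 : ℝ) :=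
            Finset.sum_le_sum fun t ht => gt_small l hl t (by rw [Finset.mem_range] at ht; omega)
        _ = N := by simp
        _ ≤ 16 := by
          have : (N : ℝ) ≤ 8 := by exact_mod_cast h.le
          linarith
    · obtain ⟨K, rfl⟩ := Nat.exists_eq_add_of_le h
      rw [Finset.sum_range_add]
      have h1 : ∑ t ∈ Finset.range 8, gt l t ≤ 8 := by
        calc ∑ t ∈ Finset.range 8, gt l t ≤ ∑ t ∈ Finset.range 8, (1 : ℝ) :=
            Finset.sum_le_sum fun t ht => gt_small l hl t (by rw [Finset.mem_range] at ht; omega)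
          _ = 8 := by simp
      have h2 : ∑ t ∈ Finset.range K, gt l (8 + t) ≤ ∑ t ∈ Finset.range K, gt l t / 2 :=
        Finset.sum_le_sum fun t _ => by rw [add_comm]; exact gt_add l hl t
      rw [← Finset.sum_div] at h2
      have h3 := ih K (by omega)
      linarith

theorem stmt_PLEN (hROOT : Stmt_ROOT) (hLEN : Stmt_LEN) (hJLT : Stmt_JLT) : Stmt_PLEN := by
  intro l hl
  obtain ⟨l₀, _, huniq, hlo, hhi⟩ := hROOT
  have hll : l = l₀ := huniq l hl
  rw [← hll] at hlo hhi
  have hl0 : 0 < l := by linarith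
  have hL := hLEN l hl
  refine ⟨1 + 32 * l ^ 25, fun M e => ?_⟩
  have hind : ∀ m : ℕ, m ≤ M → ((tlen (prog M m) : ℕ) : ℝ) ≤
      2 ^ m * (1 + ∑ i ∈ Finset.range m, 2 * l ^ (i + (M - i) / 8 + 25) / 2 ^ i) := by
    intro m
    induction m with
    | zero => intro _; simp [prog, tlen, iw]
    | succ m ih =>
      intro hm
      have h1 := ih (by omega)
      have h2 : tlen (prog M (m + 1)) = 2 * tlen (prog M m) + tlen ((JJ M m).map some) := by
        rw [prog, tlen_append, tlen_append]; ring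
      have h3 := sum_JJ l (by linarith) hL M m (m + (M - m) / 8 + 24)
        (fun j hj => (hJLT M m (by omega) j hj).1)
      rw [h2]
      push_cast
      rw [Finset.sum_range_succ]
      have h4 : (2 : ℝ) ^ (m + 1) * (2 * l ^ (m + (M - m) / 8 + 25) / 2 ^ m) =
          4 * l ^ (m + (M - m) / 8 + 25) := by
        field_simp
        ring
      have h5 : (2 : ℝ) ^ (m + 1) * (1 + (∑ i ∈ Finset.range m, 2 * l ^ (i + (M - i) / 8 + 25) / 2 ^ i +
          2 * l ^ (m + (M - m) / 8 + 25) / 2 ^ m)) =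
          2 * (2 ^ m * (1 + ∑ i ∈ Finset.range m, 2 * l ^ (i + (M - i) / 8 + 25) / 2 ^ i)) +
          4 * l ^ (m + (M - m) / 8 + 25) := by
        rw [← h4]; ring
      rw [h5]
      have h6 : m + (M - m) / 8 + 24 + 1 = m + (M - m) / 8 + 25 := by ring
      rw [h6] at h3
      linarith
  have h1 := hind M le_rfl
  have h2 : ((U (prog M M) e).length : ℝ) ≤ ((tlen (prog M M) : ℕ) : ℝ) := by
    exact_mod_cast U_length _ _
  have h3 : (2 : ℝ) ^ M * ∑ i ∈ Finset.range M, 2 * l ^ (i + (M - i) / 8 + 25) / 2 ^ i ≤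
      32 * l ^ 25 * l ^ M := by
    rw [← Finset.sum_range_reflect, Finset.mul_sum]
    have h4 : ∀ j ∈ Finset.range M, (2 : ℝ) ^ M *
        (2 * l ^ ((M - 1 - j) + (M - (M - 1 - j)) / 8 + 25) / 2 ^ (M - 1 - j)) =
        2 * l ^ 25 * l ^ M * gt l (j + 1) := by
      intro j hj
      rw [Finset.mem_range] at hj
      obtain ⟨i, rfl⟩ : ∃ i, M = i + j + 1 := ⟨M - 1 - j, by omega⟩
      have h5 : i + j + 1 - 1 - j = i := by omega
      have h6 : i + j + 1 - i = j + 1 := by omega
      rw [h5, h6, gt]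
      field_simp
      ring
    rw [Finset.sum_congr rfl h4, ← Finset.mul_sum]
    have h7 : ∑ j ∈ Finset.range M, gt l (j + 1) ≤ 16 := by
      have h8 := gt_sum l hlo (M + 1)
      rw [Finset.sum_range_succ'] at h8
      have h9 := gt_nonneg l (by linarith) 0
      linarith
    have h10 : (0 : ℝ) < 2 * l ^ 25 * l ^ M := by positivity
    nlinarith
  have h4 : (2 : ℝ) ^ M ≤ l ^ M := pow_le_pow_left₀ (by norm_num) (by linarith) M
  calc ((U (prog M M) e).length : ℝ) ≤ _ := h2.trans h1
    _ = 2 ^ M + 2 ^ M * ∑ i ∈ Finset.range M, 2 * l ^ (i + (M - i) / 8 + 25) / 2 ^ i := by ring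
    _ ≤ l ^ M + 32 * l ^ 25 * l ^ M := by linarith
    _ = (1 + 32 * l ^ 25) * l ^ M := by ring

end GrigGrowth.helper51
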