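import Pool.Agent.Work.MP_6985d1_gg.Interface

set_option autoImplicit false

namespace GrigGrowth.helper51

open GrigGrowth

lemma one_mem_ball (n : ℕ) : (1 : Equiv.Perm (List Bool)) ∈ ball n := ⟨[], by simp, by simp⟩

lemma ball_zero_ncard : (ball 0).ncard ≤ 1 := by
  have h : ball 0 ⊆ {1} := by
    rintro g ⟨w, hw, rfl⟩
    have : w = [] := List.eq_nil_of_length_eq_zero (by omega)
    subst this
    simp
  calc (ball 0).ncard ≤ ({1} : Set (Equiv.Perm (List Bool))).ncard :=
        Set.ncard_le_ncard h (Set.finite_singleton _)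
    _ = 1 := Set.ncard_singleton _

theorem stmt_FIN0 (hROOT : Stmt_ROOT) (hUP : Stmt_UP) (hLOW : Stmt_LOW) (hBF : Stmt_BALLFIN) :
    Stmt_FIN0 := by
  intro l hl
  obtain ⟨l₀, _, huniq, hlo, hhi⟩ := hROOT
  have hll : l = l₀ := huniq l hl
  rw [← hll] at hlo hhi
  have hl0 : 0 < l := by linarith
  have hlog : 0 < Real.log l := Real.log_pos (by linarith)
  have hlog2 : 0 < Real.log 2 := Real.log_pos (by norm_num)
  have hlog2' : Real.log 2 ≤ 1 := by
    have := Real.log_two_lt_d9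
    linarith
  have hlog2'' : 1 / 2 ≤ Real.log 2 := by
    have := Real.log_two_gt_d9
    linarith
  set α : ℝ := Real.log 2 / Real.log l with hα
  have hα0 : 0 < α := div_pos hlog2 hlog
  have hαh : 1 / 2 ≤ α := by
    rw [hα, div_le_div_iff₀ (by norm_num) hlog]
    have h1 : Real.log l ≤ Real.log (2 ^ (2 : ℕ)) := Real.log_le_log hl0 (by norm_num; linarith)
    rw [Real.log_pow] at h1
    push_cast at h1
    linarith
  have hpow : ∀ k : ℕ, (l ^ k : ℝ) ^ α = 2 ^ k := by
    intro k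
    have h1 : (0 : ℝ) < l ^ k := by positivity
    rw [Real.rpow_def_of_pos h1, Real.log_pow, hα]
    have h2 : (k : ℝ) * Real.log l * (Real.log 2 / Real.log l) = k * Real.log 2 := by
      field_simp
    rw [h2, Real.exp_nat_mul, Real.exp_log (by norm_num)]
  have hsq : ∀ x : ℝ, 1 ≤ x → x ≤ (x ^ 2 : ℝ) ^ α := by
    intro x hx
    have h1 : (x ^ 2 : ℝ) ^ (1 / 2 : ℝ) ≤ (x ^ 2 : ℝ) ^ α :=
      Real.rpow_le_rpow_of_exponent_le (one_le_pow₀ hx) hαh
    have h2 : (x ^ 2 : ℝ) ^ (1 / 2 : ℝ) = x := by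
      rw [← Real.sqrt_eq_rpow, Real.sqrt_sq (by linarith)]
    linarith
  constructor
  · obtain ⟨C, hC⟩ := hUP l hl
    refine ⟨(2 * C + 1) ^ 2, Nat.one_le_pow _ _ (by omega), fun n => ?_⟩
    show (ball n).ncard ≤ ff l ((2 * C + 1) ^ 2 * n)
    unfold ff
    rw [← hα]
    apply Nat.le_floor
    rcases Nat.eq_zero_or_pos n with rfl | hn
    · have h1 : ((ball 0).ncard : ℝ) ≤ 1 := by exact_mod_cast ball_zero_ncard
      refine h1.trans (Real.one_le_exp ?_)
      positivity
    · have hn1 : (1 : ℝ) ≤ n := by exact_mod_cast hn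
      have hna : (1 : ℝ) ≤ (n : ℝ) ^ α := Real.one_le_rpow hn1 hα0.le
      have hex : ∃ k : ℕ, (n : ℝ) ≤ l ^ k := by
        obtain ⟨k, hk⟩ := pow_unbounded_of_one_lt (n : ℝ) (by linarith : (1 : ℝ) < l)
        exact ⟨k, hk.le⟩
      obtain ⟨k, hk, hk2⟩ : ∃ k : ℕ, (n : ℝ) ≤ l ^ k ∧ (2 : ℝ) ^ k ≤ 2 * (n : ℝ) ^ α := by
        classical
        refine ⟨Nat.find hex, Nat.find_spec hex, ?_⟩
        rcases hk : Nat.find hex with _ | k'
        · simp; linarith
        · have h1 := Nat.find_min hex (m := k') (by omega)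
          push Not at h1
          have h2 : (l ^ k' : ℝ) ^ α ≤ (n : ℝ) ^ α :=
            Real.rpow_le_rpow (by positivity) h1.le hα0.le
          rw [hpow] at h2
          rw [pow_succ]
          linarith
      have h1 : ((ball n).ncard : ℝ) ≤ 2 ^ (C * 2 ^ k) := by exact_mod_cast hC k n hk
      have h2 : (2 : ℝ) ^ (C * 2 ^ k) = Real.exp (((C * 2 ^ k : ℕ) : ℝ) * Real.log 2) := by
        rw [Real.exp_nat_mul, Real.exp_log (by norm_num)]
      rw [h2] at h1
      refine h1.trans (Real.exp_le_exp.2 ?_)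
      push_cast
      rw [Real.mul_rpow (by positivity) (by positivity)]
      have h3 := hsq (2 * (C : ℝ) + 1) (by
        have : (0 : ℝ) ≤ C := Nat.cast_nonneg C
        linarith)
      have hC0 : (0 : ℝ) ≤ C := Nat.cast_nonneg C
      calc (C : ℝ) * 2 ^ k * Real.log 2 ≤ C * (2 * (n : ℝ) ^ α) * 1 := by gcongr
        _ = (2 * C) * (n : ℝ) ^ α := by ring
        _ ≤ ((2 * (C : ℝ) + 1) ^ 2) ^ α * (n : ℝ) ^ α := by
          refine mul_le_mul_of_nonneg_right ?_ (by linarith)
          linarith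
  · obtain ⟨C, hC⟩ := hLOW l hl
    set K : ℕ := ⌈64 * |C|⌉₊ + 1 with hK
    have hKC : 64 * |C| ≤ (K : ℝ) := by
      rw [hK]; push_cast
      have := Nat.le_ceil (64 * |C|)
      linarith
    refine ⟨K, by omega, fun n => ?_⟩
    show ff l n ≤ (ball (K * n)).ncard
    rcases Nat.eq_zero_or_pos n with rfl | hn
    · have h1 : ff l 0 ≤ 1 := by
        unfold ff
        rw [← hα]
        simp [Real.zero_rpow hα0.ne']
      refine h1.trans ?_
      rw [Nat.succ_le_iff, Set.ncard_pos (hBF _)]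
      exact ⟨1, one_mem_ball _⟩
    · have hn1 : (1 : ℝ) ≤ n := by exact_mod_cast hn
      have hna : (1 : ℝ) ≤ (n : ℝ) ^ α := Real.one_le_rpow hn1 hα0.le
      have hex : ∃ M : ℕ, 4 ≤ M ∧ 4 * (n : ℝ) ^ α ≤ 2 ^ M := by
        obtain ⟨k, hk⟩ := pow_unbounded_of_one_lt (4 * (n : ℝ) ^ α) (by norm_num : (1 : ℝ) < 2)
        refine ⟨k + 4, by omega, hk.le.trans ?_⟩
        exact pow_le_pow_right₀ (by norm_num) (by omega)
      obtain ⟨M, hM4, hM, hlM⟩ : ∃ M : ℕ, 4 ≤ M ∧ 4 * (n : ℝ) ^ α ≤ 2 ^ M ∧ l ^ M ≤ 64 * n := by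
        classical
        refine ⟨Nat.find hex, (Nat.find_spec hex).1, (Nat.find_spec hex).2, ?_⟩
        rcases Nat.lt_or_ge 4 (Nat.find hex) with h | h
        · obtain ⟨M', hM'⟩ : ∃ M', Nat.find hex = M' + 1 := ⟨Nat.find hex - 1, by omega⟩
          have h1 := Nat.find_min hex (m := M') (by omega)
          push Not at h1
          have h2 := h1 (by omega)
          rw [hM']
          by_contra hcon
          push Not at hcon
          have h3 : (64 * (n : ℝ)) ^ α < (l ^ (M' + 1) : ℝ) ^ α :=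
            Real.rpow_lt_rpow (by positivity) hcon hα0
          rw [hpow, Real.mul_rpow (by norm_num) (by positivity)] at h3
          have h4 := hsq 8 (by norm_num)
          have h5 : (64 : ℝ) = 8 ^ 2 := by norm_num
          rw [← h5] at h4
          rw [pow_succ] at h3
          have h6 : 8 * (n : ℝ) ^ α ≤ 64 ^ α * (n : ℝ) ^ α :=
            mul_le_mul_of_nonneg_right h4 (by linarith)
          linarith
        · have h1 : Nat.find hex = 4 := le_antisymm h (Nat.find_spec hex).1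
          rw [h1]
          have h2 : l ^ 4 ≤ (2.47 : ℝ) ^ 4 := pow_le_pow_left₀ hl0.le hhi.le 4
          have h3 : (2.47 : ℝ) ^ 4 ≤ 64 := by norm_num
          linarith
      have h1 : C * l ^ M ≤ ((K * n : ℕ) : ℝ) := by
        push_cast
        calc C * l ^ M ≤ |C| * l ^ M := mul_le_mul_of_nonneg_right (le_abs_self C) (by positivity)
          _ ≤ |C| * (64 * n) := mul_le_mul_of_nonneg_left hlM (abs_nonneg C)
          _ = 64 * |C| * n := by ring
          _ ≤ K * n := mul_le_mul_of_nonneg_right hKC (by linarith)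
      refine le_trans ?_ (hC M hM4 (K * n) h1)
      have h2 : (ff l n : ℝ) ≤ Real.exp ((n : ℝ) ^ α) := by
        unfold ff
        exact Nat.floor_le (Real.exp_pos _).le
      have h3 : (2 : ℝ) ^ (2 ^ (M - 1)) = Real.exp (((2 ^ (M - 1) : ℕ) : ℝ) * Real.log 2) := by
        rw [Real.exp_nat_mul, Real.exp_log (by norm_num)]
      have h4 : (ff l n : ℝ) ≤ (2 : ℝ) ^ (2 ^ (M - 1)) := by
        rw [h3]
        refine h2.trans (Real.exp_le_exp.2 ?_)
        push_cast
        have h5 : (2 : ℝ) ^ M = 2 * 2 ^ (M - 1) := by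
          rw [← pow_succ']
          congr 1
          omega
        have h6 : (0 : ℝ) < 2 ^ (M - 1) := by positivity
        nlinarith
      exact_mod_cast h4

end GrigGrowth.helper51
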